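import Mathlib
import Pool.Agent.W856.SV.Stms

set_option autoImplicit false

open MeasureTheory Matrix Set
open scoped ENNReal

namespace Pool.Agent.W12.SV

open Pool.Agent.W856.SV

/-- integrals of powers -/
lemma lint_pow {c : ℝ} (hc : 0 < c) (n : ℕ) (hn : 2 ≤ n) :
    ∫⁻ y in Ioi c, ENNReal.ofReal (1 / y ^ n) = ENNReal.ofReal (1 / (((n:ℝ) - 1) * c ^ (n - 1))) := by
  have hn' : (2:ℝ) ≤ n := by exact_mod_cast hn
  have h1 : IntegrableOn (fun y : ℝ => y ^ (-(n:ℝ))) (Ioi c) :=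
    integrableOn_Ioi_rpow_of_lt (by linarith) hc
  have h2 : ∀ y ∈ Ioi c, y ^ (-(n:ℝ)) = 1 / y ^ n := by
    intro y hy
    have hy0 : 0 < y := lt_trans hc hy
    rw [Real.rpow_neg hy0.le, Real.rpow_natCast, one_div]
  have h3 : IntegrableOn (fun y : ℝ => 1 / y ^ n) (Ioi c) := h1.congr_fun h2 measurableSet_Ioi
  rw [← ofReal_integral_eq_lintegral_ofReal h3]
  · congr 1
    rw [← setIntegral_congr_fun measurableSet_Ioi h2, integral_Ioi_rpow_of_lt (by linarith) hc]
    have e1 : (-(n:ℝ) + 1) = -((n - 1 : ℕ) : ℝ) := by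
      rw [Nat.cast_sub (by omega)]; push_cast; ring
    rw [e1, Real.rpow_neg hc.le, Real.rpow_natCast]
    have e2 : ((n - 1 : ℕ) : ℝ) = (n:ℝ) - 1 := by
      rw [Nat.cast_sub (by omega)]; push_cast; ring
    rw [e2]
    have : (n:ℝ) - 1 ≠ 0 := by linarith
    have hc' : c ^ (n - 1) ≠ 0 := by positivity
    field_simp
  · rw [Filter.EventuallyLE, ae_restrict_iff' measurableSet_Ioi]
    refine Filter.Eventually.of_forall fun y hy => ?_
    have hy0 : 0 < y := lt_trans hc hy
    positivity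

theorem t_INT : S_INT := by
  intro a b y₀ ha hb hy₀
  have second : ∀ y₀ : ℝ, 0 < y₀ →
      ∫⁻ y in Ioi y₀, ENNReal.ofReal (2 / y ^ 2) = ENNReal.ofReal (2 / y₀) := by
    intro y₀ hy₀
    have h := lint_pow hy₀ 2 le_rfl
    have e : ∀ y : ℝ, ENNReal.ofReal (2 / y ^ 2) = 2 * ENNReal.ofReal (1 / y ^ 2) := by
      intro y
      rw [show (2:ℝ) / y ^ 2 = 2 * (1 / y ^ 2) by ring, ENNReal.ofReal_mul (by norm_num)]
      norm_num
    simp_rw [e]
    rw [lintegral_const_mul' _ _ (by norm_num), h, show (2:ℝ) / y₀ = 2 * (1 / y₀) by ring,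
      ENNReal.ofReal_mul (by norm_num : (0:ℝ) ≤ 2)]
    norm_num
  refine ⟨?_, (second y₀ hy₀).le⟩
  rcases ha.eq_or_lt with ha0 | ha0
  · have : ∀ y : ℝ, ENNReal.ofReal (2 / y ^ 2 * min a (b * y ^ 2)) = 0 := by
      intro y
      rw [← ha0, min_eq_left (by positivity), mul_zero, ENNReal.ofReal_zero]
    simp_rw [this]
    simp
  rcases hb.eq_or_lt with hb0 | hb0
  · have : ∀ y : ℝ, ENNReal.ofReal (2 / y ^ 2 * min a (b * y ^ 2)) = 0 := by
      intro y
      rw [← hb0, zero_mul, min_eq_right ha, mul_zero, ENNReal.ofReal_zero]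
    simp_rw [this]
    simp
  set ys := Real.sqrt (a / b) with hys
  have hys0 : 0 < ys := Real.sqrt_pos.2 (by positivity)
  have hys2 : ys ^ 2 = a / b := Real.sq_sqrt (by positivity)
  rw [← Ioc_union_Ioi_eq_Ioi hys0.le]
  refine (lintegral_union_le _ _ _).trans ?_
  have h1 : ∫⁻ y in Ioc 0 ys, ENNReal.ofReal (2 / y ^ 2 * min a (b * y ^ 2)) ≤
      ENNReal.ofReal (2 * b * ys) := by
    calc ∫⁻ y in Ioc 0 ys, ENNReal.ofReal (2 / y ^ 2 * min a (b * y ^ 2))
        ≤ ∫⁻ y in Ioc 0 ys, ENNReal.ofReal (2 * b) := by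
          refine setLIntegral_mono measurable_const fun y hy => ?_
          refine ENNReal.ofReal_le_ofReal ?_
          have hy0 : 0 < y := hy.1
          calc 2 / y ^ 2 * min a (b * y ^ 2) ≤ 2 / y ^ 2 * (b * y ^ 2) :=
                mul_le_mul_of_nonneg_left (min_le_right _ _) (by positivity)
            _ = 2 * b := by field_simp
      _ = ENNReal.ofReal (2 * b) * ENNReal.ofReal (ys - 0) := by
          rw [setLIntegral_const, Real.volume_Ioc]
      _ = ENNReal.ofReal (2 * b * ys) := by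
          rw [sub_zero, ← ENNReal.ofReal_mul (by positivity)]
  have h2 : ∫⁻ y in Ioi ys, ENNReal.ofReal (2 / y ^ 2 * min a (b * y ^ 2)) ≤
      ENNReal.ofReal (2 * a / ys) := by
    calc ∫⁻ y in Ioi ys, ENNReal.ofReal (2 / y ^ 2 * min a (b * y ^ 2))
        ≤ ∫⁻ y in Ioi ys, ENNReal.ofReal a * ENNReal.ofReal (2 / y ^ 2) := by
          refine setLIntegral_mono (by fun_prop) fun y hy => ?_
          rw [← ENNReal.ofReal_mul ha]
          refine ENNReal.ofReal_le_ofReal ?_
          have hy0 : 0 < y := lt_trans hys0 hy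
          calc 2 / y ^ 2 * min a (b * y ^ 2) ≤ 2 / y ^ 2 * a :=
                mul_le_mul_of_nonneg_left (min_le_left _ _) (by positivity)
            _ = a * (2 / y ^ 2) := mul_comm _ _
      _ = ENNReal.ofReal a * ENNReal.ofReal (2 / ys) := by
          rw [lintegral_const_mul' _ _ ENNReal.ofReal_ne_top, second ys hys0]
      _ = ENNReal.ofReal (2 * a / ys) := by
          rw [← ENNReal.ofReal_mul ha]
          congr 1
          ring
  refine (add_le_add h1 h2).trans ?_
  rw [← ENNReal.ofReal_add (by positivity) (by positivity)]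
  refine ENNReal.ofReal_le_ofReal (le_of_eq ?_)
  have e1 : b * ys = Real.sqrt (a * b) := by
    rw [hys, Real.sqrt_div ha, Real.sqrt_mul ha]
    have hsb : Real.sqrt b ≠ 0 := (Real.sqrt_pos.2 hb0).ne'
    field_simp
    rw [Real.sq_sqrt hb]
  have e2 : a / ys = Real.sqrt (a * b) := by
    rw [← e1, div_eq_iff hys0.ne']
    have : a = b * ys ^ 2 := by rw [hys2]; field_simp
    rw [this]; ring
  rw [mul_assoc, mul_div_assoc, e1, e2]
  ring

theorem t_CAL : S_CAL := by
  intro Ω _ P hP A D h hA hD hA0 hh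
  set Q : Ω → ℝ := fun ω => max (1 + A ω) (D ω ^ 2 * h ^ 2) with hQ
  have hQ1 : ∀ ω, 1 ≤ Q ω := fun ω => le_max_of_le_left (by linarith [hA0 ω])
  set s : Set (Ω × ℝ) := {p | |D p.1| ≤ p.2 / h ∧ A p.1 ≤ p.2 ^ 2} with hs
  have hsm : MeasurableSet s := by
    have m1 : MeasurableSet {p : Ω × ℝ | |D p.1| ≤ p.2 / h} :=
      measurableSet_le (by fun_prop) (by fun_prop)
    have m2 : MeasurableSet {p : Ω × ℝ | A p.1 ≤ p.2 ^ 2} :=
      measurableSet_le (by fun_prop) (by fun_prop)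
    exact m1.inter m2
  have hpt : ∀ ω, ENNReal.ofReal (1 / Q ω) ≤
      ∫⁻ y in Ioi (1 : ℝ), ENNReal.ofReal (2 / y ^ 3) * s.indicator 1 (ω, y) := by
    intro ω
    have hsq0 : 0 < Real.sqrt (Q ω) := Real.sqrt_pos.2 (by linarith [hQ1 ω])
    have hsq1 : 1 ≤ Real.sqrt (Q ω) := Real.one_le_sqrt.2 (hQ1 ω)
    have e1 : ENNReal.ofReal (1 / Q ω) =
        ∫⁻ y in Ioi (Real.sqrt (Q ω)), ENNReal.ofReal (2 / y ^ 3) := by
      have h3 := lint_pow hsq0 3 (by norm_num)
      have e : ∀ y : ℝ, ENNReal.ofReal (2 / y ^ 3) = 2 * ENNReal.ofReal (1 / y ^ 3) := by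
        intro y
        rw [show (2:ℝ) / y ^ 3 = 2 * (1 / y ^ 3) by ring, ENNReal.ofReal_mul (by norm_num)]
        norm_num
      simp_rw [e]
      rw [lintegral_const_mul' _ _ (by norm_num), h3]
      have e2 : (1:ℝ) / ((((3:ℕ):ℝ) - 1) * √(Q ω) ^ (3 - 1)) = 1 / 2 * (1 / Q ω) := by
        rw [show 3 - 1 = 2 from rfl, Real.sq_sqrt (by linarith [hQ1 ω])]
        norm_num
        ring
      rw [e2, ENNReal.ofReal_mul (by norm_num : (0:ℝ) ≤ 1 / 2), ← mul_assoc]
      have e3 : (2:ℝ≥0∞) * ENNReal.ofReal (1 / 2) = 1 := by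
        have : (2:ℝ≥0∞) = ENNReal.ofReal 2 := by norm_num
        rw [this, ← ENNReal.ofReal_mul (by norm_num)]
        norm_num
      rw [e3, one_mul]
    rw [e1, ← lintegral_indicator measurableSet_Ioi, ← lintegral_indicator measurableSet_Ioi]
    refine lintegral_mono fun y => ?_
    by_cases hy : y ∈ Ioi (Real.sqrt (Q ω))
    · have hy' : Real.sqrt (Q ω) < y := hy
      have hy1 : y ∈ Ioi (1:ℝ) := lt_of_le_of_lt hsq1 hy'
      have hy0 : 0 < y := lt_trans hsq0 hy'
      have hQy : Q ω ≤ y ^ 2 := by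
        rw [← Real.sq_sqrt (show 0 ≤ Q ω by linarith [hQ1 ω])]
        exact pow_le_pow_left₀ hsq0.le hy'.le 2
      rw [indicator_of_mem hy, indicator_of_mem hy1]
      have hmem : (ω, y) ∈ s := by
        constructor
        · rw [le_div_iff₀ hh]
          have h5 : (|D ω| * h) ^ 2 ≤ y ^ 2 := by
            rw [mul_pow, sq_abs]
            exact (le_max_right _ _).trans hQy
          exact (pow_le_pow_iff_left₀ (by positivity) hy0.le two_ne_zero).1 h5
        · have : 1 + A ω ≤ Q ω := le_max_left _ _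
          show A ω ≤ y ^ 2
          linarith
      rw [indicator_of_mem hmem]
      simp
    · rw [indicator_of_notMem hy]
      exact zero_le
  calc ∫⁻ ω, ENNReal.ofReal (1 / max (1 + A ω) (D ω ^ 2 * h ^ 2)) ∂P
      ≤ ∫⁻ ω, (∫⁻ y in Ioi (1 : ℝ), ENNReal.ofReal (2 / y ^ 3) * s.indicator 1 (ω, y)) ∂P :=
        lintegral_mono hpt
    _ = ∫⁻ y in Ioi (1 : ℝ), (∫⁻ ω, ENNReal.ofReal (2 / y ^ 3) * s.indicator 1 (ω, y) ∂P) := by
        refine lintegral_lintegral_swap ?_
        refine Measurable.aemeasurable ?_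
        refine Measurable.mul ?_ ?_
        · fun_prop
        · exact measurable_one.indicator hsm
    _ = ∫⁻ y in Ioi (1 : ℝ), ENNReal.ofReal (2 / y ^ 3) *
          P {ω | |D ω| ≤ y / h ∧ A ω ≤ y ^ 2} := by
        refine lintegral_congr fun y => ?_
        rw [lintegral_const_mul' _ _ ENNReal.ofReal_ne_top]
        congr 1
        have hm : MeasurableSet {ω | |D ω| ≤ y / h ∧ A ω ≤ y ^ 2} := by
          have m1 : MeasurableSet {ω : Ω | |D ω| ≤ y / h} :=
            measurableSet_le (by fun_prop) (by fun_prop)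
          have m2 : MeasurableSet {ω : Ω | A ω ≤ y ^ 2} :=
            measurableSet_le (by fun_prop) (by fun_prop)
          exact m1.inter m2
        rw [← lintegral_indicator_one hm]
        refine lintegral_congr fun ω => ?_
        rfl
    _ ≤ _ := le_rfl

end Pool.Agent.W12.SV
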