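import Mathlib
import Pool.Agent.W856.SV.Stms

set_option autoImplicit false

open MeasureTheory Matrix Set
open scoped ENNReal

namespace Pool.Agent.W12.SV

open Pool.Agent.W856.SV

section
variable {ι : Type} [Fintype ι]

lemma wt_nonneg {lam : ι → ℝ} (h : ∀ k, 0 ≤ lam k) (k : ι) :
    0 ≤ lam k * (1 - lam k / ∑ l, lam l) := by
  refine mul_nonneg (h k) (sub_nonneg.2 ?_)
  refine div_le_one_of_le₀ ?_ (Finset.sum_nonneg fun l _ => h l)
  exact Finset.single_le_sum (fun l _ => h l) (Finset.mem_univ k)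

lemma sum_wt {lam : ι → ℝ} (h : ∀ k, 0 ≤ lam k) :
    ∑ k, lam k * (1 - lam k / ∑ l, lam l) = hs lam := by
  unfold hs
  by_cases h0 : ∑ l, lam l = 0
  · have h1 := (Finset.sum_eq_zero_iff_of_nonneg (fun l _ => h l)).1 h0
    have h2 : ∀ k, lam k = 0 := fun k => h1 k (Finset.mem_univ k)
    simp [h2]
  · have e : ∀ k, lam k * (1 - lam k / ∑ l, lam l) = lam k - lam k ^ 2 / ∑ l, lam l := by
      intro k; ring
    simp_rw [e]
    rw [Finset.sum_sub_distrib, ← Finset.sum_div]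
    field_simp

lemma hs_nonneg {lam : ι → ℝ} (h : ∀ k, 0 ≤ lam k) : 0 ≤ hs lam := by
  rw [← sum_wt h]
  exact Finset.sum_nonneg fun k _ => wt_nonneg h k

lemma bt_nonneg {lam : ι → ℝ} (u : ι → ι → ℝ) (h : ∀ k, 0 ≤ lam k) (R : ι → ℝ) :
    0 ≤ bt u lam R :=
  Finset.sum_nonneg fun k _ => mul_nonneg (wt_nonneg h k) (sq_nonneg _)

lemma bt_add {lam : ι → ℝ} (u : ι → ι → ℝ) (h : ∀ k, 0 ≤ lam k) (R S : ι → ℝ) :
    bt u lam (R + S) ≤ 2 * bt u lam R + 2 * bt u lam S := by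
  unfold bt
  rw [Finset.mul_sum, Finset.mul_sum, ← Finset.sum_add_distrib]
  refine Finset.sum_le_sum fun k _ => ?_
  rw [dotProduct_add]
  have h1 := wt_nonneg h k
  have h2 : (u k ⬝ᵥ R + u k ⬝ᵥ S) ^ 2 ≤ 2 * (u k ⬝ᵥ R) ^ 2 + 2 * (u k ⬝ᵥ S) ^ 2 := by
    nlinarith [sq_nonneg (u k ⬝ᵥ R - u k ⬝ᵥ S)]
  calc lam k * (1 - lam k / ∑ l, lam l) * (u k ⬝ᵥ R + u k ⬝ᵥ S) ^ 2
      ≤ lam k * (1 - lam k / ∑ l, lam l) * (2 * (u k ⬝ᵥ R) ^ 2 + 2 * (u k ⬝ᵥ S) ^ 2) :=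
        mul_le_mul_of_nonneg_left h2 h1
    _ = _ := by ring

lemma meas_dot (w : ι → ℝ) : Measurable (fun a : ι → ℝ => w ⬝ᵥ a) := by
  unfold dotProduct
  fun_prop

lemma meas_bt (u : ι → ι → ℝ) (lam : ι → ℝ) : Measurable (fun a : ι → ℝ => bt u lam a) := by
  unfold bt
  refine Finset.measurable_fun_sum _ fun k _ => ?_
  exact ((meas_dot (u k)).pow_const 2).const_mul _

lemma lint_bt (hm : S_MOM) {μ : Measure ℝ} {K : ℝ} (h : Nice μ K) [DecidableEq ι]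
    {u : ι → ι → ℝ} {lam : ι → ℝ} (hu : ON u) (hl : ∀ k, 0 ≤ lam k) :
    ∫⁻ a, ENNReal.ofReal (bt u lam a) ∂(Pr μ ι) = ENNReal.ofReal (hs lam) := by
  have e : ∀ a : ι → ℝ, ENNReal.ofReal (bt u lam a) =
      ∑ k, ENNReal.ofReal (lam k * (1 - lam k / ∑ l, lam l)) *
        ENNReal.ofReal ((u k ⬝ᵥ a) ^ 2) := by
    intro a
    unfold bt
    rw [ENNReal.ofReal_sum_of_nonneg (fun k _ => mul_nonneg (wt_nonneg hl k) (sq_nonneg _))]
    refine Finset.sum_congr rfl fun k _ => ?_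
    rw [ENNReal.ofReal_mul (wt_nonneg hl k)]
  simp_rw [e]
  rw [lintegral_finsetSum _ (fun k _ => by
    exact (((meas_dot (u k)).pow_const 2).ennreal_ofReal).const_mul _)]
  have e2 : ∀ k, ∫⁻ a, ENNReal.ofReal (lam k * (1 - lam k / ∑ l, lam l)) *
        ENNReal.ofReal ((u k ⬝ᵥ a) ^ 2) ∂(Pr μ ι) =
        ENNReal.ofReal (lam k * (1 - lam k / ∑ l, lam l)) := by
    intro k
    rw [lintegral_const_mul' _ _ ENNReal.ofReal_ne_top, hm μ K h ι (u k), hu k k, if_pos rfl,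
      ENNReal.ofReal_one, mul_one]
  simp_rw [e2]
  rw [← ENNReal.ofReal_sum_of_nonneg (fun k _ => wt_nonneg hl k), sum_wt hl]

/-- Markov with factor four -/
lemma markov4 {Ω : Type} [MeasurableSpace Ω] {P : Measure Ω} {f : Ω → ℝ} (hf : Measurable f)
    (hf0 : ∀ ω, 0 ≤ f ω) {e : ℝ} (he : 0 ≤ e) (hint : ∫⁻ ω, ENNReal.ofReal (f ω) ∂P =
      ENNReal.ofReal e) : P {ω | 4 * e < f ω} ≤ 4⁻¹ := by
  rcases he.eq_or_lt with h0 | h0
  · subst h0
    rw [ENNReal.ofReal_zero, lintegral_eq_zero_iff hf.ennreal_ofReal] at hint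
    have : P {ω | 4 * 0 < f ω} = 0 := by
      rw [mul_zero]
      have h2 : ∀ᵐ ω ∂P, ¬ 0 < f ω := by
        filter_upwards [hint] with ω hω
        simp only [Pi.zero_apply, ENNReal.ofReal_eq_zero] at hω
        linarith
      have h3 := ae_iff.1 h2
      simpa using h3
    rw [this]
    exact zero_le
  · have h1 : P {ω | 4 * e < f ω} ≤ P {ω | ENNReal.ofReal (4 * e) ≤ ENNReal.ofReal (f ω)} :=
      measure_mono fun ω hω => ENNReal.ofReal_le_ofReal (le_of_lt hω)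
    refine h1.trans ?_
    have hne : ENNReal.ofReal (4 * e) ≠ 0 := by
      rw [Ne, ENNReal.ofReal_eq_zero]; push Not; positivity
    refine (meas_ge_le_lintegral_div hf.ennreal_ofReal.aemeasurable hne
      ENNReal.ofReal_ne_top).trans ?_
    rw [hint, ← ENNReal.ofReal_div_of_pos (by positivity)]
    have : e / (4 * e) = 4⁻¹ := by field_simp
    rw [this, ENNReal.ofReal_inv_of_pos (by norm_num)]
    norm_num

end

theorem t_T (hm : S_MOM) : S_T := by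
  intro μ K h
  refine ⟨10, by norm_num, ?_⟩
  intro ι _ _ ν u lam hrd c
  have hp := h.prob
  have hP : IsProbabilityMeasure (Pr μ ι) := by unfold Pr; infer_instance
  have hl := hrd.lam0
  have hs0 := hs_nonneg hl
  set H := hs lam with hH
  set b := bt u lam c with hb
  have hb0 : 0 ≤ b := bt_nonneg u hl c
  set m := ν ⬝ᵥ c with hmm
  set X := 1 + Real.sqrt H + Real.sqrt b + |m| * Real.sqrt H with hX
  have hX1 : 1 ≤ X := by
    have h1 := Real.sqrt_nonneg H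
    have h2 := Real.sqrt_nonneg b
    have h3 : 0 ≤ |m| * Real.sqrt H := by positivity
    linarith
  -- the event
  set E : Set (ι → ℝ) := {a | (ν ⬝ᵥ a) ^ 2 ≤ 4 * 1 ∧ bt u lam a ≤ 4 * H} with hE
  have hEm : MeasurableSet E := by
    have m1 : MeasurableSet {a : ι → ℝ | (ν ⬝ᵥ a) ^ 2 ≤ 4 * 1} :=
      measurableSet_le ((meas_dot ν).pow_const 2) measurable_const
    have m2 : MeasurableSet {a : ι → ℝ | bt u lam a ≤ 4 * H} :=
      measurableSet_le (meas_bt u lam) measurable_const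
    exact m1.inter m2
  have hEc : Pr μ ι Eᶜ ≤ 2⁻¹ := by
    have hsub : Eᶜ ⊆ {a | 4 * 1 < (ν ⬝ᵥ a) ^ 2} ∪ {a | 4 * H < bt u lam a} := by
      intro a ha
      by_contra hcon
      apply ha
      simp only [mem_union, mem_ofPred_eq, not_or, not_lt] at hcon
      exact hcon
    have h1 : Pr μ ι {a | 4 * 1 < (ν ⬝ᵥ a) ^ 2} ≤ 4⁻¹ := by
      refine markov4 ((meas_dot ν).pow_const 2) (fun _ => sq_nonneg _) zero_le_one ?_
      rw [hm μ K h ι ν, hrd.nu1]
    have h2 : Pr μ ι {a | 4 * H < bt u lam a} ≤ 4⁻¹ :=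
      markov4 (meas_bt u lam) (fun a => bt_nonneg u hl a) hs0 (lint_bt hm h hrd.on hl)
    calc Pr μ ι Eᶜ ≤ Pr μ ι ({a | 4 * 1 < (ν ⬝ᵥ a) ^ 2} ∪ {a | 4 * H < bt u lam a}) :=
          measure_mono hsub
      _ ≤ 4⁻¹ + 4⁻¹ := (measure_union_le _ _).trans (add_le_add h1 h2)
      _ = 2⁻¹ := by
          rw [← two_mul, show (4:ℝ≥0∞) = 2 * 2 by norm_num,
            ENNReal.mul_inv (by norm_num) (by norm_num), ← mul_assoc,
            ENNReal.mul_inv_cancel (by norm_num) (by norm_num), one_mul]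
  have hEp : 2⁻¹ ≤ Pr μ ι E := by
    have h1 : (1:ℝ≥0∞) ≤ Pr μ ι E + Pr μ ι Eᶜ := by
      rw [measure_add_measure_compl hEm, measure_univ]
    have h2 : (2:ℝ≥0∞)⁻¹ + 2⁻¹ ≤ Pr μ ι E + 2⁻¹ := by
      rw [ENNReal.inv_two_add_inv_two]
      exact h1.trans (add_le_add le_rfl hEc)
    exact (ENNReal.add_le_add_iff_right (by norm_num)).1 h2
  -- lower bound of sw on E
  have hsw : ∀ a ∈ E, 1 / (5 * X) ≤ sw ν u lam (a + c) := by
    intro a ha
    unfold sw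
    have h1 := ha.1
    have h2 := ha.2
    have h3 := bt_add u hl a c
    have h4 : (ν ⬝ᵥ (a + c)) ^ 2 ≤ 2 * (ν ⬝ᵥ a) ^ 2 + 2 * m ^ 2 := by
      rw [dotProduct_add]
      nlinarith [sq_nonneg (ν ⬝ᵥ a - ν ⬝ᵥ c)]
    have h5 := bt_nonneg u hl (a + c)
    have h6 : (ν ⬝ᵥ (a + c)) ^ 2 * H ≤ (8 + 2 * m ^ 2) * H :=
      mul_le_mul_of_nonneg_right (by linarith) hs0
    have h7 : 0 ≤ (ν ⬝ᵥ (a + c)) ^ 2 * H := by positivity
    have s1 := Real.sq_sqrt hs0
    have s2 := Real.sq_sqrt hb0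
    have s3 := Real.sqrt_nonneg H
    have s4 := Real.sqrt_nonneg b
    have s5 := abs_nonneg m
    have s6 := sq_abs m
    have hle : 2 + (ν ⬝ᵥ (a + c)) ^ 2 * H + 2 * bt u lam (a + c) ≤ (5 * X) ^ 2 := by
      have hX2 : 1 + H + b + m ^ 2 * H ≤ X ^ 2 := by
        rw [hX]
        have e : (1 + Real.sqrt H + Real.sqrt b + |m| * Real.sqrt H) ^ 2 =
            1 + Real.sqrt H ^ 2 + Real.sqrt b ^ 2 + |m| ^ 2 * Real.sqrt H ^ 2 +
            2 * (Real.sqrt H + Real.sqrt b + |m| * Real.sqrt H + Real.sqrt H * Real.sqrt b +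
              Real.sqrt H * (|m| * Real.sqrt H) + Real.sqrt b * (|m| * Real.sqrt H)) := by ring
        rw [e, s1, s2, s6]
        have : 0 ≤ 2 * (Real.sqrt H + Real.sqrt b + |m| * Real.sqrt H + Real.sqrt H * Real.sqrt b +
              Real.sqrt H * (|m| * Real.sqrt H) + Real.sqrt b * (|m| * Real.sqrt H)) := by
          positivity
        linarith
      have hm2 : 0 ≤ m ^ 2 * H := by positivity
      nlinarith
    have hpos : 0 < 2 + (ν ⬝ᵥ (a + c)) ^ 2 * H + 2 * bt u lam (a + c) := by linarith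
    refine one_div_le_one_div_of_le (Real.sqrt_pos.2 hpos) ?_
    rw [Real.sqrt_le_left (by positivity)]
    exact hle
  unfold XX
  calc ENNReal.ofReal (1 / (10 * X)) = ENNReal.ofReal (1 / (5 * X)) * 2⁻¹ := by
        have e : (2:ℝ≥0∞)⁻¹ = ENNReal.ofReal (2⁻¹) := by
          rw [ENNReal.ofReal_inv_of_pos (by norm_num)]; norm_num
        rw [e, ← ENNReal.ofReal_mul (by positivity)]
        congr 1
        field_simp
        norm_num
    _ ≤ ENNReal.ofReal (1 / (5 * X)) * Pr μ ι E := by gcongr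
    _ = ∫⁻ a in E, ENNReal.ofReal (1 / (5 * X)) ∂(Pr μ ι) := by rw [setLIntegral_const]
    _ ≤ ∫⁻ a in E, ENNReal.ofReal (sw ν u lam (a + c)) ∂(Pr μ ι) := by
        refine setLIntegral_mono' hEm fun a ha => ?_
        exact ENNReal.ofReal_le_ofReal (hsw a ha)
    _ ≤ ∫⁻ a, ENNReal.ofReal (sw ν u lam (a + c)) ∂(Pr μ ι) := setLIntegral_le_lintegral _ _

end Pool.Agent.W12.SV
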