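import Mathlib
import Pool.Agent.W856.SV.Stms
import Pool.Agent.W12.SV.T

set_option autoImplicit false

open MeasureTheory Matrix Set
open scoped ENNReal

namespace Pool.Agent.W12.SV

open Pool.Agent.W856.SV

section
variable {ι : Type} [Fintype ι]

/-- restriction to `T` -/
def rs (T : ι → Prop) [DecidablePred T] (v : ι → ℝ) : ι → ℝ := fun k => if T k then v k else 0

/-- restriction to the complement of `T` -/
def rc (T : ι → Prop) [DecidablePred T] (v : ι → ℝ) : ι → ℝ := fun k => if T k then 0 else v k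

lemma dot_mix (T : ι → Prop) [DecidablePred T] (v x y : ι → ℝ) :
    v ⬝ᵥ (fun k => if T k then y k else x k) = rs T v ⬝ᵥ y + rc T v ⬝ᵥ x := by
  unfold dotProduct rs rc
  rw [← Finset.sum_add_distrib]
  refine Finset.sum_congr rfl fun k _ => ?_
  by_cases h : T k <;> simp [h]

lemma rc_mix (T : ι → Prop) [DecidablePred T] (v x y : ι → ℝ) :
    rc T v ⬝ᵥ (fun k => if T k then y k else x k) = rc T v ⬝ᵥ x := by
  unfold dotProduct rc
  refine Finset.sum_congr rfl fun k _ => ?_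
  by_cases h : T k <;> simp [h]

lemma dot_split (T : ι → Prop) [DecidablePred T] (v a : ι → ℝ) :
    v ⬝ᵥ a = rs T v ⬝ᵥ a + rc T v ⬝ᵥ a := by
  unfold dotProduct rs rc
  rw [← Finset.sum_add_distrib]
  refine Finset.sum_congr rfl fun k _ => ?_
  by_cases h : T k <;> simp [h]

lemma norm_split (T : ι → Prop) [DecidablePred T] (v : ι → ℝ) :
    v ⬝ᵥ v = rs T v ⬝ᵥ rs T v + rc T v ⬝ᵥ rc T v := by
  unfold dotProduct rs rc
  rw [← Finset.sum_add_distrib]
  refine Finset.sum_congr rfl fun k _ => ?_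
  by_cases h : T k <;> simp [h]

lemma meas_ev (ν : ι → ℝ) (m δ : ℝ) : MeasurableSet {a : ι → ℝ | |ν ⬝ᵥ a + m| ≤ δ} := by
  have := meas_dot ν
  exact measurableSet_le (by fun_prop) measurable_const

lemma dot_self_nonneg (v : ι → ℝ) : 0 ≤ v ⬝ᵥ v :=
  Finset.sum_nonneg fun k _ => mul_self_nonneg _

/-- resampling tool -/
lemma tool (hr : S_RES) (hm : S_MOM) {μ : Measure ℝ} {K C1 : ℝ} (h : Nice μ K) (hC1 : 0 < C1)
    (hsb : SB1 μ C1) (T : ι → Prop) [DecidablePred T] (ν w : ι → ℝ) (m δ : ℝ) (hδ : 0 ≤ δ)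
    {q : ℝ} (hq : 0 < q) (hν : q ≤ rs T ν ⬝ᵥ rs T ν) :
    ∫⁻ a in {a | |ν ⬝ᵥ a + m| ≤ δ}, ENNReal.ofReal ((rc T w ⬝ᵥ a) ^ 2) ∂(Pr μ ι) ≤
      ENNReal.ofReal (rc T w ⬝ᵥ rc T w * (C1 * δ / Real.sqrt q)) := by
  have hp := h.prob
  have hev := meas_ev ν m δ
  have hwm : Measurable (fun a : ι → ℝ => ENNReal.ofReal ((rc T w ⬝ᵥ a) ^ 2)) :=
    ((meas_dot (rc T w)).pow_const 2).ennreal_ofReal
  rw [← lintegral_indicator hev, hr μ hp ι T _ (hwm.indicator hev)]
  have hin : ∀ x : ι → ℝ, ∫⁻ y, ({a : ι → ℝ | |ν ⬝ᵥ a + m| ≤ δ}.indicator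
      (fun a => ENNReal.ofReal ((rc T w ⬝ᵥ a) ^ 2))) (fun k => if T k then y k else x k)
      ∂(Pr μ ι) ≤ ENNReal.ofReal ((rc T w ⬝ᵥ x) ^ 2) * ENNReal.ofReal (C1 * δ / Real.sqrt q) := by
    intro x
    have e : ∀ y : ι → ℝ, ({a : ι → ℝ | |ν ⬝ᵥ a + m| ≤ δ}.indicator
      (fun a => ENNReal.ofReal ((rc T w ⬝ᵥ a) ^ 2))) (fun k => if T k then y k else x k) =
      ENNReal.ofReal ((rc T w ⬝ᵥ x) ^ 2) *
        ({y : ι → ℝ | |rs T ν ⬝ᵥ y + (rc T ν ⬝ᵥ x + m)| ≤ δ}.indicator 1) y := by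
      intro y
      have e1 : ν ⬝ᵥ (fun k => if T k then y k else x k) + m =
          rs T ν ⬝ᵥ y + (rc T ν ⬝ᵥ x + m) := by rw [dot_mix]; ring
      by_cases hy : |rs T ν ⬝ᵥ y + (rc T ν ⬝ᵥ x + m)| ≤ δ
      · rw [indicator_of_mem (show (fun k => if T k then y k else x k) ∈
          {a : ι → ℝ | |ν ⬝ᵥ a + m| ≤ δ} by
            show |ν ⬝ᵥ (fun k => if T k then y k else x k) + m| ≤ δ
            rw [e1]; exact hy),
          indicator_of_mem (show y ∈ {y : ι → ℝ | |rs T ν ⬝ᵥ y + (rc T ν ⬝ᵥ x + m)| ≤ δ} from hy),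
          rc_mix]
        simp
      · rw [indicator_of_notMem (show (fun k => if T k then y k else x k) ∉
          {a : ι → ℝ | |ν ⬝ᵥ a + m| ≤ δ} by
            show ¬ |ν ⬝ᵥ (fun k => if T k then y k else x k) + m| ≤ δ
            rw [e1]; exact hy),
          indicator_of_notMem
            (show y ∉ {y : ι → ℝ | |rs T ν ⬝ᵥ y + (rc T ν ⬝ᵥ x + m)| ≤ δ} from hy)]
        simp
    simp_rw [e]
    rw [lintegral_const_mul' _ _ ENNReal.ofReal_ne_top,
      lintegral_indicator_one (meas_ev (rs T ν) (rc T ν ⬝ᵥ x + m) δ)]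
    gcongr
    refine (hsb ι (rs T ν) (rc T ν ⬝ᵥ x + m) δ (lt_of_lt_of_le hq hν) hδ).trans ?_
    refine ENNReal.ofReal_le_ofReal ?_
    have h1 := Real.sqrt_pos.2 hq
    have h2 := Real.sqrt_le_sqrt hν
    gcongr
  refine (lintegral_mono hin).trans ?_
  rw [lintegral_mul_const' _ _ ENNReal.ofReal_ne_top, hm μ K h ι (rc T w),
    ← ENNReal.ofReal_mul (dot_self_nonneg _)]

lemma choose_S {f : ι → ℝ} (hf0 : ∀ k, 0 ≤ f k) (hf : ∀ k, f k < 1 / 2) (s : Finset ι)
    (hs : 1 / 4 ≤ ∑ k ∈ s, f k) : ∃ S : Finset ι, 1 / 4 ≤ ∑ k ∈ S, f k ∧ ∑ k ∈ S, f k ≤ 3 / 4 := by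
  classical
  induction s using Finset.induction_on with
  | empty => simp at hs; norm_num at hs
  | insert k s hk ih =>
    by_cases h : 1 / 4 ≤ ∑ k ∈ s, f k
    · exact ih h
    · refine ⟨insert k s, hs, ?_⟩
      rw [Finset.sum_insert hk]
      have := hf k
      push Not at h
      linarith

end

lemma pt_bound {wj aj νj p r m δ : ℝ} (h : |νj * aj + p + m| ≤ δ) (hδ : δ < 1)
    (hj : 1 / 2 ≤ νj ^ 2) : (wj * aj + r) ^ 2 ≤
      (12 * wj ^ 2 * m ^ 2 + 12 * wj ^ 2) + (12 * wj ^ 2 * p ^ 2 + 2 * r ^ 2) := by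
  have h1 : (νj * aj) ^ 2 ≤ 3 * (m ^ 2 + 1 + p ^ 2) := by
    have h2 : νj * aj = (νj * aj + p + m) - m - p := by ring
    have h3 : (νj * aj + p + m) ^ 2 ≤ 1 := by
      rw [← sq_abs]
      have := abs_nonneg (νj * aj + p + m)
      nlinarith
    rw [h2]
    set e := νj * aj + p + m
    nlinarith [sq_nonneg (e + m), sq_nonneg (e + p), sq_nonneg (m - p)]
  have h4 : aj ^ 2 ≤ 6 * (m ^ 2 + 1 + p ^ 2) := by
    rw [mul_pow] at h1
    nlinarith [sq_nonneg aj]
  have h5 : (wj * aj + r) ^ 2 ≤ 2 * (wj ^ 2 * aj ^ 2) + 2 * r ^ 2 := by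
    nlinarith [sq_nonneg (wj * aj - r)]
  have h6 : wj ^ 2 * aj ^ 2 ≤ wj ^ 2 * (6 * (m ^ 2 + 1 + p ^ 2)) :=
    mul_le_mul_of_nonneg_left h4 (sq_nonneg _)
  have h7 : wj ^ 2 * (6 * (m ^ 2 + 1 + p ^ 2)) * 2 =
    12 * wj ^ 2 * m ^ 2 + 12 * wj ^ 2 + 12 * wj ^ 2 * p ^ 2 := by ring
  linarith

set_option maxHeartbeats 2000000 in
theorem t_CHB (hs : S_SB) (hr : S_RES) (hm : S_MOM) (hf : S_FAR) : S_CHB := by
  intro μ K h
  obtain ⟨C1, hC1, hsb, -, -⟩ := hs μ K h
  obtain ⟨Cf, hCf, hfar⟩ := hf μ K h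
  refine ⟨1 + 160 * C1 + 24 * Cf, by positivity, ?_⟩
  intro ι _ ν w hν hwν m δ hδ
  classical
  have hp := h.prob
  have hP : IsProbabilityMeasure (Pr μ ι) := by unfold Pr; infer_instance
  have hww : 0 ≤ w ⬝ᵥ w := dot_self_nonneg w
  have hev := meas_ev ν m δ
  by_cases hδ1 : 1 ≤ δ
  · refine (setLIntegral_le_lintegral _ _).trans ?_
    rw [hm μ K h ι w]
    refine ENNReal.ofReal_le_ofReal ?_
    have h1 : 1 ≤ (1 + 160 * C1 + 24 * Cf) * δ := by nlinarith
    nlinarith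
  push Not at hδ1
  by_cases hB : ∀ j, ν j ^ 2 < 1 / 2
  · -- case B
    obtain ⟨S, hS1, hS2⟩ := choose_S (f := fun k => ν k ^ 2) (fun k => sq_nonneg _) hB Finset.univ
      (by
        have : ∑ k, ν k ^ 2 = 1 := by
          rw [← hν]
          refine Finset.sum_congr rfl fun k _ => ?_
          rw [sq]
        rw [this]; norm_num)
    have e1 : rs (· ∈ S) ν ⬝ᵥ rs (· ∈ S) ν = ∑ k ∈ S, ν k ^ 2 := by
      unfold dotProduct rs
      rw [← Finset.sum_filter_add_sum_filter_not Finset.univ (· ∈ S)]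
      have a1 : ∑ k ∈ Finset.univ.filter (· ∈ S), (if k ∈ S then ν k else 0) *
          (if k ∈ S then ν k else 0) = ∑ k ∈ S, ν k ^ 2 := by
        rw [Finset.filter_mem_eq_inter, Finset.univ_inter]
        refine Finset.sum_congr rfl fun k hk => ?_
        rw [if_pos hk, sq]
      have a2 : ∑ k ∈ Finset.univ.filter (fun k => ¬ k ∈ S), (if k ∈ S then ν k else 0) *
          (if k ∈ S then ν k else 0) = 0 := by
        refine Finset.sum_eq_zero fun k hk => ?_
        rw [if_neg (Finset.mem_filter.1 hk).2, mul_zero]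
      rw [a1, a2, add_zero]
    have e2 : rc (· ∈ S) ν ⬝ᵥ rc (· ∈ S) ν = 1 - ∑ k ∈ S, ν k ^ 2 := by
      have := norm_split (· ∈ S) ν
      rw [hν, e1] at this
      linarith
    -- the complement predicate
    have hsc : ∀ v : ι → ℝ, rs (fun k => ¬ k ∈ S) v = rc (· ∈ S) v := by
      intro v; funext k; unfold rs rc; by_cases hk : k ∈ S <;> simp [hk]
    have hcs : ∀ v : ι → ℝ, rc (fun k => ¬ k ∈ S) v = rs (· ∈ S) v := by
      intro v; funext k; unfold rs rc; by_cases hk : k ∈ S <;> simp [hk]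
    have hsq : Real.sqrt (1 / 4) = 1 / 2 := by
      rw [show (1:ℝ) / 4 = (1 / 2) ^ 2 by norm_num, Real.sqrt_sq (by norm_num)]
    have t1 := tool hr hm h hC1 hsb (· ∈ S) ν w m δ hδ (q := 1 / 4) (by norm_num)
      (by rw [e1]; exact hS1)
    have t2 := tool hr hm h hC1 hsb (fun k => ¬ k ∈ S) ν w m δ hδ (q := 1 / 4) (by norm_num)
      (by rw [hsc, e2]; linarith)
    rw [hcs] at t2
    rw [hsq] at t1 t2
    have hsplit : ∫⁻ a in {a | |ν ⬝ᵥ a + m| ≤ δ}, ENNReal.ofReal ((w ⬝ᵥ a) ^ 2) ∂(Pr μ ι) ≤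
        2 * ∫⁻ a in {a | |ν ⬝ᵥ a + m| ≤ δ}, ENNReal.ofReal ((rs (· ∈ S) w ⬝ᵥ a) ^ 2) ∂(Pr μ ι) +
        2 * ∫⁻ a in {a | |ν ⬝ᵥ a + m| ≤ δ}, ENNReal.ofReal ((rc (· ∈ S) w ⬝ᵥ a) ^ 2) ∂(Pr μ ι) := by
      rw [← lintegral_const_mul' _ _ (by norm_num), ← lintegral_const_mul' _ _ (by norm_num),
        ← lintegral_add_left ((((meas_dot _).pow_const 2).ennreal_ofReal).const_mul _)]
      refine lintegral_mono fun a => ?_
      have e3 : (2:ℝ≥0∞) = ENNReal.ofReal 2 := by norm_num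
      simp only
      rw [e3, ← ENNReal.ofReal_mul (by norm_num), ← ENNReal.ofReal_mul (by norm_num),
        ← ENNReal.ofReal_add (by positivity) (by positivity)]
      refine ENNReal.ofReal_le_ofReal ?_
      rw [dot_split (· ∈ S) w a]
      nlinarith [sq_nonneg (rs (· ∈ S) w ⬝ᵥ a - rc (· ∈ S) w ⬝ᵥ a)]
    refine hsplit.trans ?_
    have n1 := dot_self_nonneg (rs (· ∈ S) w)
    have n2 := dot_self_nonneg (rc (· ∈ S) w)
    have e3 : (2:ℝ≥0∞) = ENNReal.ofReal 2 := by norm_num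
    refine (add_le_add (mul_le_mul_right t2 2) (mul_le_mul_right t1 2)).trans ?_
    rw [e3, ← ENNReal.ofReal_mul (by norm_num), ← ENNReal.ofReal_mul (by norm_num),
        ← ENNReal.ofReal_add (by positivity) (by positivity)]
    refine ENNReal.ofReal_le_ofReal ?_
    have hn := norm_split (· ∈ S) w
    have e4 : 2 * (rs (· ∈ S) w ⬝ᵥ rs (· ∈ S) w * (C1 * δ / (1 / 2))) +
        2 * (rc (· ∈ S) w ⬝ᵥ rc (· ∈ S) w * (C1 * δ / (1 / 2))) = 4 * C1 * δ * (w ⬝ᵥ w) := by
      rw [hn]; ring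
    rw [e4]
    have : 0 ≤ δ * (w ⬝ᵥ w) := by positivity
    nlinarith
  · -- case A
    push Not at hB
    obtain ⟨j, hj⟩ := hB
    set T : ι → Prop := fun k => k = j with hT
    have eT : ∀ v a : ι → ℝ, rs T v ⬝ᵥ a = v j * a j := by
      intro v a
      unfold dotProduct rs
      rw [Finset.sum_eq_single j]
      · simp [hT]
      · intro k _ hk
        simp [hT, hk]
      · intro hcon
        exact absurd (Finset.mem_univ j) hcon
    have eTT : ∀ v : ι → ℝ, rs T v ⬝ᵥ rs T v = v j ^ 2 := by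
      intro v
      rw [eT]
      simp [rs, hT, sq]
    set W' := rc T w ⬝ᵥ rc T w with hW'
    set N' := rc T ν ⬝ᵥ rc T ν with hN'
    have hW'0 : 0 ≤ W' := dot_self_nonneg _
    have hN'0 : 0 ≤ N' := dot_self_nonneg _
    have hwsplit : w ⬝ᵥ w = w j ^ 2 + W' := by rw [norm_split T w, eTT]
    have hνsplit : (1:ℝ) = ν j ^ 2 + N' := by rw [← hν, norm_split T ν, eTT]
    have hN'1 : N' ≤ 1 / 2 := by linarith
    -- w_j
    have hwj : w j ^ 2 ≤ 2 * N' * W' := by
      have h1 : w j * ν j + rc T w ⬝ᵥ rc T ν = 0 := by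
        rw [← hwν, dot_split T w ν, eT]
        congr 1
        unfold dotProduct rc
        refine Finset.sum_congr rfl fun k _ => ?_
        by_cases hk : T k <;> simp [hk]
      have h2 : (rc T w ⬝ᵥ rc T ν) ^ 2 ≤ W' * N' := by
        have := Finset.sum_mul_sq_le_sq_mul_sq Finset.univ (rc T w) (rc T ν)
        rw [hW', hN']
        unfold dotProduct
        simpa only [sq] using this
      have h3 : (w j * ν j) ^ 2 ≤ W' * N' := by
        have : w j * ν j = -(rc T w ⬝ᵥ rc T ν) := by linarith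
        rw [this, neg_sq]
        exact h2
      rw [mul_pow] at h3
      nlinarith [sq_nonneg (w j)]
    have hsqj : 0 < Real.sqrt (1 / 2) := Real.sqrt_pos.2 (by norm_num)
    have hsq2 : 1 / 2 ≤ Real.sqrt (1 / 2) := by
      apply Real.le_sqrt_of_sq_le
      norm_num
    have hq : (1:ℝ) / 2 ≤ rs T ν ⬝ᵥ rs T ν := by rw [eTT]; exact hj
    have tw := tool hr hm h hC1 hsb T ν w m δ hδ (q := 1 / 2) (by norm_num) hq
    have tν := tool hr hm h hC1 hsb T ν ν m δ hδ (q := 1 / 2) (by norm_num) hq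
    rw [← hW'] at tw
    rw [← hN'] at tν
    have hdiv : C1 * δ / Real.sqrt (1 / 2) ≤ 2 * (C1 * δ) := by
      rw [div_le_iff₀ hsqj]
      have : 0 ≤ C1 * δ := by positivity
      nlinarith
    have tw' : ∫⁻ a in {a | |ν ⬝ᵥ a + m| ≤ δ}, ENNReal.ofReal ((rc T w ⬝ᵥ a) ^ 2) ∂(Pr μ ι) ≤
        ENNReal.ofReal (W' * (2 * (C1 * δ))) :=
      tw.trans (ENNReal.ofReal_le_ofReal (mul_le_mul_of_nonneg_left hdiv hW'0))
    have tν' : ∫⁻ a in {a | |ν ⬝ᵥ a + m| ≤ δ}, ENNReal.ofReal ((rc T ν ⬝ᵥ a) ^ 2) ∂(Pr μ ι) ≤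
        ENNReal.ofReal (N' * (2 * (C1 * δ))) :=
      tν.trans (ENNReal.ofReal_le_ofReal (mul_le_mul_of_nonneg_left hdiv hN'0))
    have hPev : Pr μ ι {a | |ν ⬝ᵥ a + m| ≤ δ} ≤ ENNReal.ofReal (C1 * δ) := by
      have := hsb ι ν m δ (by rw [hν]; norm_num) hδ
      rwa [hν, Real.sqrt_one, div_one] at this
    -- far bound
    have hm2 : ENNReal.ofReal (12 * w j ^ 2 * m ^ 2) * Pr μ ι {a | |ν ⬝ᵥ a + m| ≤ δ} ≤
        ENNReal.ofReal ((48 * C1 + 24 * Cf) * δ * W') := by
      have hN'W : 0 ≤ δ * W' := by positivity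
      by_cases hmm : |m| ≤ 2
      · have hm4 : m ^ 2 ≤ 4 := by
          rw [← sq_abs]
          have := abs_nonneg m
          nlinarith
        refine (mul_le_mul_right hPev _).trans ?_
        rw [← ENNReal.ofReal_mul (by positivity)]
        refine ENNReal.ofReal_le_ofReal ?_
        have h1 : w j ^ 2 * m ^ 2 ≤ 4 * W' := by
          have h2 : w j ^ 2 ≤ W' := by nlinarith
          calc w j ^ 2 * m ^ 2 ≤ W' * 4 := mul_le_mul h2 hm4 (sq_nonneg _) hW'0
            _ = 4 * W' := by ring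
        calc 12 * w j ^ 2 * m ^ 2 * (C1 * δ) = 12 * (C1 * δ) * (w j ^ 2 * m ^ 2) := by ring
          _ ≤ 12 * (C1 * δ) * (4 * W') := mul_le_mul_of_nonneg_left h1 (by positivity)
          _ ≤ (48 * C1 + 24 * Cf) * δ * W' := by nlinarith [mul_nonneg hCf.le hN'W]
      · push Not at hmm
        have hm0 : m ≠ 0 := by
          rintro rfl
          simp at hmm
          linarith
        rcases hN'0.eq_or_lt with h0 | h0
        · have : w j ^ 2 = 0 := by
            have h1 := sq_nonneg (w j)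
            rw [← h0] at hwj
            nlinarith
          rw [this]
          simp
        · set ta := Real.sqrt N' with hta
          have hta0 : 0 < ta := Real.sqrt_pos.2 h0
          have hta2 : ta ^ 2 = N' := Real.sq_sqrt hN'0
          have hta1 : ta ≤ 1 := by
            exact Real.sqrt_le_one.2 (by linarith)
          have hF := hfar ι ν hν ta m δ hta0 hta1 (by
            intro k
            rw [hta2]
            by_cases hk : k = j
            · rw [hk]; linarith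
            · have : ν k ^ 2 ≤ N' := by
                rw [hN']
                unfold dotProduct
                have h5 := Finset.single_le_sum (f := fun k => rc T ν k * rc T ν k)
                  (fun k _ => mul_self_nonneg _) (Finset.mem_univ k)
                refine le_trans (le_of_eq ?_) h5
                simp [rc, hT, hk, sq]
              linarith) hm0 hδ (by linarith)
          refine (mul_le_mul_right hF _).trans ?_
          rw [← ENNReal.ofReal_mul (by positivity)]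
          refine ENNReal.ofReal_le_ofReal ?_
          have e1 : 12 * w j ^ 2 * m ^ 2 * (Cf * δ / (ta * m ^ 2)) =
              12 * (Cf * δ) * (w j ^ 2 / ta) := by
            field_simp
          rw [e1]
          have h2 : w j ^ 2 / ta ≤ 2 * W' := by
            rw [div_le_iff₀ hta0]
            calc w j ^ 2 ≤ 2 * N' * W' := hwj
              _ = 2 * W' * (ta * ta) := by rw [← hta2]; ring
              _ ≤ 2 * W' * (ta * 1) := by gcongr
              _ = 2 * W' * ta := by ring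
          calc 12 * (Cf * δ) * (w j ^ 2 / ta) ≤ 12 * (Cf * δ) * (2 * W') :=
                mul_le_mul_of_nonneg_left h2 (by positivity)
            _ ≤ (48 * C1 + 24 * Cf) * δ * W' := by nlinarith [mul_nonneg hC1.le hN'W]
    -- pointwise bound
    have hpt : ∀ a ∈ {a : ι → ℝ | |ν ⬝ᵥ a + m| ≤ δ}, ENNReal.ofReal ((w ⬝ᵥ a) ^ 2) ≤
        (ENNReal.ofReal (12 * w j ^ 2 * m ^ 2) + ENNReal.ofReal (12 * w j ^ 2)) +
        (ENNReal.ofReal (12 * w j ^ 2) * ENNReal.ofReal ((rc T ν ⬝ᵥ a) ^ 2) +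
          ENNReal.ofReal 2 * ENNReal.ofReal ((rc T w ⬝ᵥ a) ^ 2)) := by
      intro a ha
      have ha' : |ν ⬝ᵥ a + m| ≤ δ := ha
      rw [← ENNReal.ofReal_mul (by positivity), ← ENNReal.ofReal_mul (by positivity),
        ← ENNReal.ofReal_add (by positivity) (by positivity),
        ← ENNReal.ofReal_add (by positivity) (by positivity),
        ← ENNReal.ofReal_add (by positivity) (by positivity)]
      refine ENNReal.ofReal_le_ofReal ?_
      rw [dot_split T w a, eT]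
      rw [dot_split T ν a, eT] at ha'
      exact pt_bound ha' hδ1 hj
    have m1 : Measurable (fun a : ι → ℝ => ENNReal.ofReal (12 * w j ^ 2) *
        ENNReal.ofReal ((rc T ν ⬝ᵥ a) ^ 2)) :=
      (((meas_dot _).pow_const 2).ennreal_ofReal).const_mul _
    refine (setLIntegral_mono' hev hpt).trans ?_
    rw [lintegral_add_left measurable_const, lintegral_add_left m1, setLIntegral_const,
      lintegral_const_mul' _ _ ENNReal.ofReal_ne_top,
      lintegral_const_mul' _ _ ENNReal.ofReal_ne_top, add_mul]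
    have b2 : ENNReal.ofReal (12 * w j ^ 2) * Pr μ ι {a | |ν ⬝ᵥ a + m| ≤ δ} ≤
        ENNReal.ofReal (12 * W' * (C1 * δ)) := by
      refine (mul_le_mul_right hPev _).trans ?_
      rw [← ENNReal.ofReal_mul (by positivity)]
      refine ENNReal.ofReal_le_ofReal ?_
      have h2 : w j ^ 2 ≤ W' := by nlinarith
      have : 0 ≤ C1 * δ := by positivity
      nlinarith
    have b3 : ENNReal.ofReal (12 * w j ^ 2) *
        ∫⁻ a in {a | |ν ⬝ᵥ a + m| ≤ δ}, ENNReal.ofReal ((rc T ν ⬝ᵥ a) ^ 2) ∂(Pr μ ι) ≤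
        ENNReal.ofReal (12 * W' * (C1 * δ)) := by
      refine (mul_le_mul_right tν' _).trans ?_
      rw [← ENNReal.ofReal_mul (by positivity)]
      refine ENNReal.ofReal_le_ofReal ?_
      have h2 : w j ^ 2 ≤ W' := by nlinarith
      have h3 : 0 ≤ C1 * δ := by positivity
      have h4 : N' * (2 * (C1 * δ)) ≤ C1 * δ := by nlinarith
      calc 12 * w j ^ 2 * (N' * (2 * (C1 * δ))) ≤ 12 * w j ^ 2 * (C1 * δ) :=
            mul_le_mul_of_nonneg_left h4 (by positivity)
        _ ≤ 12 * W' * (C1 * δ) := by gcongr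
    have b4 : ENNReal.ofReal 2 *
        ∫⁻ a in {a | |ν ⬝ᵥ a + m| ≤ δ}, ENNReal.ofReal ((rc T w ⬝ᵥ a) ^ 2) ∂(Pr μ ι) ≤
        ENNReal.ofReal (4 * W' * (C1 * δ)) := by
      refine (mul_le_mul_right tw' _).trans ?_
      rw [← ENNReal.ofReal_mul (by positivity)]
      refine ENNReal.ofReal_le_ofReal (le_of_eq ?_)
      ring
    refine (add_le_add (add_le_add hm2 b2) (add_le_add b3 b4)).trans ?_
    rw [← ENNReal.ofReal_add (by positivity) (by positivity),
        ← ENNReal.ofReal_add (by positivity) (by positivity),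
        ← ENNReal.ofReal_add (by positivity) (by positivity)]
    refine ENNReal.ofReal_le_ofReal ?_
    have hle : W' ≤ w ⬝ᵥ w := by rw [hwsplit]; nlinarith [sq_nonneg (w j)]
    have hfin : (48 * C1 + 24 * Cf) * δ * W' + 12 * W' * (C1 * δ) +
        (12 * W' * (C1 * δ) + 4 * W' * (C1 * δ)) = (76 * C1 + 24 * Cf) * δ * W' := by ring
    rw [hfin]
    calc (76 * C1 + 24 * Cf) * δ * W' ≤ (1 + 160 * C1 + 24 * Cf) * δ * (w ⬝ᵥ w) := by
          gcongr
          linarith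
      _ = _ := rfl

end Pool.Agent.W12.SV
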