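import Mathlib
import Pool.Agent.W856.SV.Stms

set_option autoImplicit false

open MeasureTheory Matrix
open scoped ENNReal

namespace Pool.Agent.W12.SV

open Pool.Agent.W856.SV

lemma noAtoms {μ : Measure ℝ} {K : ℝ} (h : Nice μ K) : NullSingletonClass μ := by
  refine ⟨fun x => ?_⟩
  have h1 : μ {x} ≤ (ENNReal.ofReal K • (volume : Measure ℝ)) {x} := h.dens {x}
  rw [Measure.smul_apply, Real.volume_singleton, smul_zero] at h1
  exact le_antisymm h1 zero_le

/-- the matrix of the entries `e i j` -/
def NM {ι : Type} {n : ℕ} (e : Fin n → Fin n → ι) (M : Matrix (Fin n) (Fin n) ℝ) (x : ι → ℝ) :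
    Matrix (Fin n) (Fin n) ℝ := Matrix.of fun i j => x (e i j) + M i j

lemma continuous_NM {ι : Type} {n : ℕ} (e : Fin n → Fin n → ι) (M : Matrix (Fin n) (Fin n) ℝ) :
    Continuous (NM e M) := by
  unfold NM
  fun_prop

lemma det_ae (hr : S_RES) {μ : Measure ℝ} {K : ℝ} (h : Nice μ K) {ι : Type} [Fintype ι]
    [DecidableEq ι] (n : ℕ) : ∀ (e : Fin n → Fin n → ι),
    (∀ i j i' j', e i j = e i' j' → i = i' ∧ j = j') → ∀ M : Matrix (Fin n) (Fin n) ℝ,
    ∀ᵐ x ∂(Pr μ ι), (NM e M x).det ≠ 0 := by
  have hp := h.prob
  have ha := noAtoms h
  have hP : IsProbabilityMeasure (Pr μ ι) := by unfold Pr; infer_instance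
  induction n with
  | zero =>
    intro e _ M
    refine Filter.Eventually.of_forall fun x => ?_
    simp
  | succ n ih =>
    intro e he M
    -- the minor
    have hmin := ih (fun i j => e i.succ j.succ) (by
      intro i j i' j' hh
      have := he _ _ _ _ hh
      exact ⟨Fin.succ_injective _ this.1, Fin.succ_injective _ this.2⟩)
      (fun i j => M i.succ j.succ)
    set k0 := e 0 0 with hk0
    have hdet : ∀ x y : ι → ℝ, (NM e M (fun k => if k = k0 then y k else x k)).det =
        (y k0 + M 0 0) * (NM (fun i j => e i.succ j.succ) (fun i j => M i.succ j.succ) x).det +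
        ((NM e M x).det - (x k0 + M 0 0) *
          (NM (fun i j => e i.succ j.succ) (fun i j => M i.succ j.succ) x).det) := by
      intro x y
      have hsub : ∀ j : Fin (n + 1), (NM e M (fun k => if k = k0 then y k else x k)).submatrix
          Fin.succ (Fin.succAbove j) = (NM e M x).submatrix Fin.succ (Fin.succAbove j) := by
        intro j
        ext a b
        simp only [NM, submatrix_apply, of_apply]
        have : e a.succ (j.succAbove b) ≠ k0 := by
          intro hh
          have := (he _ _ _ _ hh).1
          exact Fin.succ_ne_zero a this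
        rw [if_neg this]
      have h0 : ∀ j : Fin n, (NM e M (fun k => if k = k0 then y k else x k)) 0 j.succ =
          NM e M x 0 j.succ := by
        intro j
        simp only [NM, of_apply]
        have : e 0 j.succ ≠ k0 := by
          intro hh
          have := (he _ _ _ _ hh).2
          exact Fin.succ_ne_zero j this
        rw [if_neg this]
      have h00 : (NM e M (fun k => if k = k0 then y k else x k)) 0 0 = y k0 + M 0 0 := by
        simp [NM, hk0]
      have h00' : NM e M x 0 0 = x k0 + M 0 0 := by simp [NM, hk0]
      have hmm : (NM e M x).submatrix Fin.succ (Fin.succAbove 0) =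
          NM (fun i j => e i.succ j.succ) (fun i j => M i.succ j.succ) x := by
        ext a b
        simp [NM]
      rw [det_succ_row_zero, det_succ_row_zero (NM e M x), Fin.sum_univ_succ, Fin.sum_univ_succ]
      simp only [hsub, h0, h00, h00', hmm]
      simp
    have hset : MeasurableSet {x : ι → ℝ | (NM e M x).det = 0} :=
      (isClosed_singleton.preimage ((continuous_NM e M).matrix_det)).measurableSet
    rw [ae_iff]
    simp only [not_not]
    rw [← lintegral_indicator_one hset, hr μ h.prob ι (fun k => k = k0) _
      (measurable_one.indicator hset)]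
    rw [lintegral_eq_zero_iff' ?_]
    · filter_upwards [hmin] with x hx
      simp only [Pi.zero_apply]
      rw [← MeasureTheory.lintegral_zero (μ := Pr μ ι)]
      refine lintegral_congr_ae ?_
      have hy : ∀ᵐ y ∂(Pr μ ι), y k0 ≠ -((NM e M x).det - (x k0 + M 0 0) *
          (NM (fun i j => e i.succ j.succ) (fun i j => M i.succ j.succ) x).det) /
          (NM (fun i j => e i.succ j.succ) (fun i j => M i.succ j.succ) x).det - M 0 0 := by
        rw [ae_iff]
        simp only [not_not]
        exact Measure.pi_hyperplane (μ := fun _ : ι => μ) k0 _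
      filter_upwards [hy] with y hy
      rw [Set.indicator_of_notMem]
      rw [Set.mem_ofPred_eq, hdet]
      intro hc
      apply hy
      field_simp
      linarith
    · refine Measurable.aemeasurable ?_
      have hm : Measurable (fun p : (ι → ℝ) × (ι → ℝ) =>
          ({x : ι → ℝ | (NM e M x).det = 0}.indicator (1 : (ι → ℝ) → ℝ≥0∞))
            (fun k => if k = k0 then p.2 k else p.1 k)) := by
        refine (measurable_one.indicator hset).comp ?_
        refine measurable_pi_lambda _ fun k => ?_
        split_ifs <;> fun_prop
      exact hm.lintegral_prod_right'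

theorem t_DET (hr : S_RES) : S_DET := by
  intro μ K h n M
  have := det_ae hr h (ι := Fin n × Fin n) n (fun i j => (i, j)) (by
    intro i j i' j' hh
    exact Prod.ext_iff.1 hh) M
  refine this.mono fun ω hω => ?_
  exact hω

end Pool.Agent.W12.SV
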